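import Mathlib
import Pool.Agent.H174.Campbell

set_option autoImplicit false

namespace Pool.Agent.Results.MP_c4ccc8_an.Majorization

/-- The class `U_α`: `F` is analytic and locally univalent in the open unit disc, normalized by
`F 0 = 0` and `F' 0 = 1`, and its order
`sup_{|z| < 1} |-conj z + (1 - |z|^2) F''(z) / (2 F'(z))|` is at most `α`
(the supremum is at most `α` exactly when every value is). -/
def InU (α : ℝ) (F : ℂ → ℂ) : Prop :=
  DifferentiableOn ℂ F (Metric.ball 0 1) ∧ (∀ z : ℂ, ‖z‖ < 1 → deriv F z ≠ 0) ∧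
    F 0 = 0 ∧ deriv F 0 = 1 ∧
    ∀ z : ℂ, ‖z‖ < 1 → ‖-(starRingEnd ℂ) z + (1 - (‖z‖ : ℂ) ^ 2) * deriv (deriv F) z /
      (2 * deriv F z)‖ ≤ α

/-- `f ≺ F`: there is `w`, analytic in the open unit disc, with `|w z| ≤ |z|` and
`f z = F (w z)` there. -/
def Subordinate (f F : ℂ → ℂ) : Prop :=
  ∃ w : ℂ → ℂ, DifferentiableOn ℂ w (Metric.ball 0 1) ∧
    (∀ z : ℂ, ‖z‖ < 1 → ‖w z‖ ≤ ‖z‖) ∧ ∀ z : ℂ, ‖z‖ < 1 → f z = F (w z)

/-- `ρ(α) = α + 1 - √(α ^ 2 + 2 α)`. -/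
noncomputable def rho (α : ℝ) : ℝ := α + 1 - √(α ^ 2 + 2 * α)

/-- Campbell's conjecture, for every `α ≥ 1` (in particular for `1 < α < 1.65`): if `F ∈ U_α`,
`f ≺ F` and `f' 0` is real and nonnegative, then `|f' z| ≤ |F' z|` for all `|z| < ρ(α)`. -/
theorem result (α : ℝ) (hα : 1 ≤ α) (F f : ℂ → ℂ) (hF : InU α F) (hf : Subordinate f F)
    (him : (deriv f 0).im = 0) (hre : 0 ≤ (deriv f 0).re) (z : ℂ) (hz : ‖z‖ < rho α) :
    ‖deriv f z‖ ≤ ‖deriv F z‖ := by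
  obtain ⟨hFd, hF', _, hF1, hord⟩ := hF
  obtain ⟨w, hw, hwz, hfw⟩ := hf
  exact Pool.Agent.H174.Campbell.campbell α hα F f w hFd hF' hF1 hord hw hwz hfw
    (deriv f 0).re hre (Complex.ext (by simp) (by simp [him])) z hz

end Pool.Agent.Results.MP_c4ccc8_an.Majorization
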